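import Pool.Agent.Helper54_SIQ.PR7

/-!
# MP_021b97_an, Q1, module INT: currents commute with averages
-/

set_option autoImplicit false

open MeasureTheory Filter Topology

namespace Pool.Agent.SIQ.H54

open Pool.Agent.SIU

theorem continuous_qm : Continuous (fun p : E6 × E6 => qm p.1 p.2) := by
  have h1 : ∀ m : Fin 6, Continuous (fun p : E6 × E6 => p.1 m) := fun m =>
    (continuous_apply m).comp continuous_fst
  have h2 : ∀ m : Fin 6, Continuous (fun p : E6 × E6 => p.2 m) := fun m =>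
    (continuous_apply m).comp continuous_snd
  have h3 : ∀ m : Fin 6, Continuous (fun p : E6 × E6 => (starRingEnd ℂ) (p.1 m)) := fun m =>
    Complex.continuous_conj.comp (h1 m)
  refine continuous_pi fun m => ?_
  obtain ⟨i, rfl | rfl⟩ := blocks m
  · have : (fun p : E6 × E6 => qm p.1 p.2 (lo i)) = fun p =>
        p.1 (lo i) * p.2 (lo i) - (starRingEnd ℂ) (p.1 (hi i)) * p.2 (hi i) := by
      funext p
      exact qm_lo _ _ _
    rw [this]
    exact ((h1 _).mul (h2 _)).sub ((h3 _).mul (h2 _))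
  · have : (fun p : E6 × E6 => qm p.1 p.2 (hi i)) = fun p =>
        p.1 (hi i) * p.2 (lo i) + (starRingEnd ℂ) (p.1 (lo i)) * p.2 (hi i) := by
      funext p
      exact qm_hi _ _ _
    rw [this]
    exact ((h1 _).mul (h2 _)).add ((h3 _).mul (h2 _))

theorem continuousOn_cmp (hcpt : CptStmt) {k : ℕ} {β : E6 → Alt 6 k}
    (h : ContinuousOn β X1.U) : ContinuousOn (cmp β) X1.U := by
  have h1 : ContDiffOn ℝ ((0 : ℕ∞) : WithTop ℕ∞) β X1.U := contDiffOn_zero.mpr h
  exact (hcpt.2.2.1 k 0 β h1).continuousOn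

section general

variable {F : Type} [NormedAddCommGroup F]

/-- the translates, as continuous functions on `M1` -/
noncomputable def FF (hqua : QuaStmt) (b : E6 → F) (hb : ContinuousOn b X1.U) (g : X1.U) :
    C(M1, F) where
  toFun w := b (qm g w)
  continuous_toFun := by
    refine hb.comp_continuous ?_ fun w => (hqua.2.1 _ _).mpr ⟨g.2, M1_subset w.2⟩
    exact continuous_qm.comp (continuous_const.prodMk continuous_subtype_val)

theorem continuous_FF (hqua : QuaStmt) (b : E6 → F) (hb : ContinuousOn b X1.U) :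
    Continuous (FF hqua b hb) := by
  apply ContinuousMap.continuous_of_continuous_uncurry
  refine hb.comp_continuous (f := fun p : X1.U × M1 => qm p.1 p.2) ?_
    fun p => (hqua.2.1 _ _).mpr ⟨p.1.2, M1_subset p.2.2⟩
  exact continuous_qm.comp ((continuous_subtype_val.comp continuous_fst).prodMk
    (continuous_subtype_val.comp continuous_snd))

open Classical in
/-- extension by `0` -/
noncomputable def GF (hqua : QuaStmt) (b : E6 → F) (hb : ContinuousOn b X1.U) (g : E6) :
    C(M1, F) :=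
  if h : g ∈ X1.U then FF hqua b hb ⟨g, h⟩ else 0

theorem GF_apply (hqua : QuaStmt) (b : E6 → F) (hb : ContinuousOn b X1.U) {g : E6}
    (hg : g ∈ X1.U) (w : M1) : GF hqua b hb g w = b (qm g w) := by
  unfold GF
  rw [dif_pos hg]
  rfl

theorem continuousOn_GF (hqua : QuaStmt) (b : E6 → F) (hb : ContinuousOn b X1.U) :
    ContinuousOn (GF hqua b hb) X1.U := by
  rw [continuousOn_iff_continuous_domRestrict]
  have : X1.U.domRestrict (GF hqua b hb) = FF hqua b hb := by
    funext g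
    show GF hqua b hb g = _
    unfold GF
    rw [dif_pos g.2]
  rw [this]
  exact continuous_FF hqua b hb

theorem norm_GF_le (hqua : QuaStmt) (b : E6 → F) (hb : ContinuousOn b X1.U) {c : ℝ}
    (hc0 : 0 ≤ c) (hc : ∀ w ∈ X1.U, ‖b w‖ ≤ c) (g : E6) : ‖GF hqua b hb g‖ ≤ c := by
  by_cases hg : g ∈ X1.U
  · rw [ContinuousMap.norm_le _ hc0]
    intro w
    rw [GF_apply hqua b hb hg]
    exact hc _ ((hqua.2.1 _ _).mpr ⟨hg, M1_subset w.2⟩)
  · unfold GF
    rw [dif_neg hg, norm_zero]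
    exact hc0

theorem aesm_of_continuousOn {f : E6 → F} (hU : volume (X1.Uᶜ) = 0)
    (hf : ContinuousOn f X1.U) : AEStronglyMeasurable f (volume : Measure E6) := by
  have h1 : AEStronglyMeasurable f ((volume : Measure E6).restrict X1.U) :=
    hf.aestronglyMeasurable isOpen_U1.measurableSet
  have h2 : (volume : Measure E6).restrict X1.U = volume :=
    Measure.restrict_eq_self_of_ae_mem (mem_ae_iff.mpr hU)
  rwa [h2] at h1

variable [NormedSpace ℝ F] [CompleteSpace F]

theorem int_gen (hqua : QuaStmt) (hU : volume (X1.Uᶜ) = 0) {ρ : E6 → ℝ}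
    (hρc : ContinuousOn ρ X1.U) (hρ0 : ∀ g, 0 ≤ ρ g) (hρi : Integrable ρ) (b : E6 → F)
    (hb : ContinuousOn b X1.U) {c : ℝ} (hc0 : 0 ≤ c) (hc : ∀ w ∈ X1.U, ‖b w‖ ≤ c)
    (Tt : C(M1, F) →L[ℝ] ℝ) (A : C(M1, F)) (t : ℝ)
    (hA : ∀ w : M1, A w = t • ∫ g, ρ g • b (qm g w)) :
    Integrable (fun g => ρ g * Tt (GF hqua b hb g)) ∧
      Tt A = t * ∫ g, ρ g * Tt (GF hqua b hb g) := by
  have hn := norm_GF_le hqua b hb hc0 hc
  let Φ : E6 → C(M1, F) := fun g => ρ g • GF hqua b hb g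
  have hcon : ContinuousOn Φ X1.U := hρc.smul (continuousOn_GF hqua b hb)
  have hm : AEStronglyMeasurable Φ (volume : Measure E6) :=
    aesm_of_continuousOn (F := C(M1, F)) hU hcon
  have hi : Integrable Φ := by
    refine Integrable.mono' (hρi.mul_const c) hm (Filter.Eventually.of_forall fun g => ?_)
    show ‖ρ g • GF hqua b hb g‖ ≤ ρ g * c
    rw [norm_smul, Real.norm_of_nonneg (hρ0 g)]
    exact mul_le_mul_of_nonneg_left (hn g) (hρ0 g)
  have hTg : ∀ g, ρ g * Tt (GF hqua b hb g) = Tt (Φ g) := by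
    intro g
    show _ = Tt (ρ g • GF hqua b hb g)
    rw [map_smul, smul_eq_mul]
  have hev : A = t • ∫ g, Φ g := by
    ext w
    rw [hA w]
    show _ = t • ((∫ g, Φ g) w)
    congr 1
    have h5 := (ContinuousMap.evalCLM ℝ w : C(M1, F) →L[ℝ] F).integral_comp_comm hi
    have h6 : (∫ g, Φ g) w = ∫ g, (Φ g) w := h5.symm
    rw [h6]
    apply integral_congr_ae
    have hae : ∀ᵐ g : E6, g ∈ X1.U := mem_ae_iff.mpr hU
    filter_upwards [hae] with g hg
    show _ = ρ g • GF hqua b hb g w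
    rw [GF_apply hqua b hb hg]
  simp only [hTg]
  refine ⟨Tt.integrable_comp hi, ?_⟩
  rw [hev, map_smul, smul_eq_mul, Tt.integral_comp_comm hi]

end general

theorem int (hcpt : CptStmt) (hqua : QuaStmt) (hqum : QumStmt) (hrho : RhoStmt)
    (hgsf : GsfStmt) (havf : AvfStmt) (hext : ExtStmt) : IntStmt := by
  intro δ hδ q T hT β
  obtain ⟨Tt, ht1, -⟩ := hext q T hT
  obtain ⟨r1, r2, r3, r4, -⟩ := hrho δ hδ
  have hU := hqum.2.2.2.2.2.1
  have hcb := continuousOn_cmp hcpt β.2.1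
  obtain ⟨c, hc⟩ := isCompact_M1.exists_bound_of_continuousOn (hcb.mono M1_subset)
  have hc0 : 0 ≤ max c 0 := le_max_right _ _
  have hcU : ∀ z ∈ X1.U, ‖cmp β.1 z‖ ≤ max c 0 := by
    intro z hz
    rw [hcpt.2.2.2.2.2.2 _ β.1 β.2.2.1 _ hz]
    exact (hc _ (nz_mem hz)).trans (le_max_left _ _)
  obtain ⟨a1, a2, a3, a4, -⟩ := havf δ hδ (2 * q) β.1 β.2.1 β.2.2.1
  let A : C(M1, Alt 3 (2 * q)) := ⟨fun w => cmp (Av δ β.1) w,
    (continuousOn_cmp hcpt a2).comp_continuous continuous_subtype_val fun w => M1_subset w.2⟩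
  have hgen := int_gen (F := Alt 3 (2 * q)) hqua hU r1 (fun g => (r2 g).1) r3 (cmp β.1) hcb hc0
    hcU Tt A (Zc δ)⁻¹ (fun w => (a4 w (M1_subset w.2)).2)
  have hTg : ∀ g, rho δ g * T (toF (gs g β.1)) =
      rho δ g * Tt (GF (F := Alt 3 (2 * q)) hqua (cmp β.1) hcb g) := by
    intro g
    by_cases hg : g ∈ X1.U
    · congr 1
      symm
      apply ht1
      intro w
      have G := hgsf g hg
      have e : (toF (gs g β.1)).1 w = gs g β.1 w :=
        toF_apply (G.1 _ _ β.2.1) (G.2.1 _ _ β.2.2.1) (M1_subset w.2)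
      have e2 : cmp (toF (gs g β.1)).1 w = cmp (gs g β.1) w := by
        unfold cmp
        rw [e]
      rw [e2, hcpt.2.2.2.2.1]
      exact GF_apply (F := Alt 3 (2 * q)) hqua (cmp β.1) hcb hg w
    · rw [rho_zero hδ hg, zero_mul, zero_mul]
  have hev : Tt A = T (toF (Av δ β.1)) := by
    apply ht1
    intro w
    have e : (toF (Av δ β.1)).1 w = Av δ β.1 w := toF_apply a2 a3 (M1_subset w.2)
    show cmp (Av δ β.1) w = cmp (toF (Av δ β.1)).1 w
    unfold cmp
    rw [e]
  simp only [hTg]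
  rw [← hev]
  exact hgen

end Pool.Agent.SIQ.H54
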