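import Pool.Agent.Helper15_SIQ.Stmts
import Pool.Agent.Helper15_SIU.Stmts

/-!
# MP_021b97_an, Q1: smoothness, locality, invariance of `extDeriv`, `ddc`
-/

set_option autoImplicit false

open MeasureTheory Filter Topology

namespace Pool.Agent.SIQ.H54

open Pool.Agent.SIU

theorem contDiffOn_extDeriv {N k : ℕ} {η : (Fin N → ℂ) → Alt N k} {V : Set (Fin N → ℂ)}
    (hV : IsOpen V) {m n : WithTop ℕ∞} (h : ContDiffOn ℝ n η V) (hm : m + 1 ≤ n) :
    ContDiffOn ℝ m (extDeriv η) V := by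
  have h1 : ContDiffOn ℝ m (fderiv ℝ η) V := h.fderiv_of_isOpen hV hm
  exact (ContinuousAlternatingMap.alternatizeUncurryFinCLM ℝ
    (Fin N → ℂ) ℝ).contDiff.comp_contDiffOn h1

theorem contDiffOn_compL {N n k : ℕ} {η : (Fin N → ℂ) → Alt N k} {V : Set (Fin N → ℂ)}
    {m : WithTop ℕ∞} (L : (Fin n → ℂ) →L[ℝ] (Fin N → ℂ)) (h : ContDiffOn ℝ m η V) :
    ContDiffOn ℝ m (fun z => (η z).compContinuousLinearMap L) V :=
  (ContinuousAlternatingMap.compContinuousLinearMapCLM (F := ℝ) (ι := Fin k)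
    L).contDiff.comp_contDiffOn h

theorem contDiffOn_ddc {N k : ℕ} {η : (Fin N → ℂ) → Alt N k} {V : Set (Fin N → ℂ)}
    (hV : IsOpen V) {m n : WithTop ℕ∞} (h : ContDiffOn ℝ n η V) (hm : m + 1 + 1 ≤ n) :
    ContDiffOn ℝ m (ddc η) V := by
  have h1 : ContDiffOn ℝ (m + 1) (extDeriv η) V := contDiffOn_extDeriv hV h hm
  have h2 := contDiffOn_compL (mulC N Complex.I) h1
  have h3 := contDiffOn_extDeriv (m := m) hV h2 le_rfl
  exact h3.neg

theorem ddc_congr {N k : ℕ} {η η' : (Fin N → ℂ) → Alt N k} {z : Fin N → ℂ}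
    (h : η =ᶠ[𝓝 z] η') : ddc η z = ddc η' z := by
  unfold ddc
  congr 1
  apply Filter.EventuallyEq.extDeriv_eq
  filter_upwards [h.eventuallyEq_nhds] with w hw
  rw [hw.extDeriv_eq]

theorem ddc_congr_on {N k : ℕ} {η η' : (Fin N → ℂ) → Alt N k} {V : Set (Fin N → ℂ)}
    (hV : IsOpen V) (h : ∀ z ∈ V, η z = η' z) {z : Fin N → ℂ} (hz : z ∈ V) :
    ddc η z = ddc η' z :=
  ddc_congr (by filter_upwards [hV.mem_nhds hz] with w hw using h w hw)

theorem extDeriv_congr_on {N k : ℕ} {η η' : (Fin N → ℂ) → Alt N k} {V : Set (Fin N → ℂ)}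
    (hV : IsOpen V) (h : ∀ z ∈ V, η z = η' z) {z : Fin N → ℂ} (hz : z ∈ V) :
    extDeriv η z = extDeriv η' z :=
  Filter.EventuallyEq.extDeriv_eq (by filter_upwards [hV.mem_nhds hz] with w hw using h w hw)

theorem basicOn_neg {k : ℕ} {V : Set E6} {η : E6 → Alt 6 k} (h : X1.BasicOn V η) :
    X1.BasicOn V (fun z => - η z) :=
  ⟨fun z hz c hc v => congrArg Neg.neg (h.1 z hz c hc v),
    fun z hz v i hv => by
      show - (η z v) = 0
      rw [h.2 z hz v i hv, neg_zero]⟩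

theorem basicOn_sub {k : ℕ} {V : Set E6} {η η' : E6 → Alt 6 k} (h : X1.BasicOn V η)
    (h' : X1.BasicOn V η') : X1.BasicOn V (fun z => η z - η' z) :=
  ⟨fun z hz c hc v => by
      show η _ _ - η' _ _ = η _ _ - η' _ _
      rw [h.1 z hz c hc v, h'.1 z hz c hc v],
    fun z hz v i hv => by
      show η _ _ - η' _ _ = 0
      rw [h.2 z hz v i hv, h'.2 z hz v i hv, sub_zero]⟩

theorem basicOn_congr {k : ℕ} {V : Set E6} (hV : Sat V) {η η' : E6 → Alt 6 k}
    (h : X1.BasicOn V η) (he : ∀ z ∈ V, η' z = η z) : X1.BasicOn V η' :=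
  ⟨fun z hz c hc v => by
      rw [he _ (hV z hz c hc), he z hz]
      exact h.1 z hz c hc v,
    fun z hz v i hv => by
      rw [he z hz]
      exact h.2 z hz v i hv⟩

theorem basicOn_extDeriv (hbsd : BsdStmt) {k : ℕ} {η : E6 → Alt 6 k}
    (h1 : DifferentiableOn ℝ η X1.U) (h : X1.BasicOn X1.U η) :
    X1.BasicOn X1.U (extDeriv η) :=
  (hbsd 6 3 3 X1 X1.U isOpen_U1 sat_U).1 k η h1 h

theorem basicOn_ddc (hbsd : BsdStmt) {k : ℕ} {η : E6 → Alt 6 k} {n : WithTop ℕ∞}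
    (h1 : ContDiffOn ℝ n η X1.U) (hn : 2 ≤ n) (h : X1.BasicOn X1.U η) :
    X1.BasicOn X1.U (ddc η) := by
  have hb := hbsd 6 3 3 X1 X1.U isOpen_U1 sat_U
  have h2 : ContDiffOn ℝ 2 η X1.U := h1.of_le hn
  have h3 : ContDiffOn ℝ 1 (extDeriv η) X1.U :=
    contDiffOn_extDeriv isOpen_U1 h2 (by norm_num)
  have h4 := basicOn_extDeriv hbsd (h2.differentiableOn (by norm_num)) h
  have h5 := hb.2.2 (k + 1) (extDeriv η) Complex.I h4
  have h6 : ContDiffOn ℝ 1 (fun z => (extDeriv η z).compContinuousLinearMap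
    (mulC 6 Complex.I)) X1.U := contDiffOn_compL _ h3
  have h7 := basicOn_extDeriv hbsd (h6.differentiableOn (by norm_num)) h5
  exact basicOn_neg h7

theorem rotInv_ddc (hrdc : RdcStmt) {k : ℕ} {η : E6 → Alt 6 k} {n : WithTop ℕ∞}
    (h1 : ContDiffOn ℝ n η X1.U) (hn : 2 ≤ n) (h : RotInv η) : RotInv (ddc η) := by
  intro z hz u hu v
  have h2 : ContDiffAt ℝ 2 η z := (h1.of_le hn).contDiffAt (isOpen_U1.mem_nhds hz)
  have h3 := hrdc 6 k η z h2 u hu
  have h4 : ddc (fun w => (η w).compContinuousLinearMap (mulC 6 u)) z = ddc η z := by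
    apply ddc_congr_on isOpen_U1 _ hz
    intro w hw
    ext v
    exact h w hw u hu v
  rw [h4] at h3
  calc ddc η z (fun j => u • v j) = ((ddc η z).compContinuousLinearMap (mulC 6 u)) v := rfl
    _ = ddc η z v := by rw [← h3]

theorem pull_congr {k : ℕ} {a a' : E6 → Alt 6 k} (h : ∀ z ∈ X1.U, a z = a' z) (x : C3) :
    Toric.pull X1.σ a x = Toric.pull X1.σ a' x := by
  unfold Toric.pull
  rw [h _ (sigma1_mem_U x)]

theorem pair_congr {k l : ℕ} {a a' : E6 → Alt 6 k} {b b' : E6 → Alt 6 l}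
    (h : ∀ z ∈ X1.U, a z = a' z) (h' : ∀ z ∈ X1.U, b z = b' z) : X1.pair a b = X1.pair a' b' := by
  unfold Toric.pair
  simp only [pull_congr h, pull_congr h']

/-- linearity of the pairing in the first argument -/
theorem pair_sub_left (hprf : PrfStmt) (hwdg : WdgStmt) {k l : ℕ} (hkl : k + l = 6)
    {a a' : E6 → Alt 6 k} {b : E6 → Alt 6 l} (ha : ContinuousOn a X1.U)
    (ha' : X1.BasicOn X1.U a) (hc : ContinuousOn a' X1.U) (hc' : X1.BasicOn X1.U a')
    (hb : ContinuousOn b X1.U) (hb' : X1.BasicOn X1.U b) :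
    X1.pair (fun z => a z - a' z) b = X1.pair a b - X1.pair a' b := by
  have h1 := (hprf k l hkl a b ha ha' hb hb').1
  have h2 := (hprf k l hkl a' b hc hc' hb hb').1
  unfold Toric.pair
  rw [← integral_sub h1 h2]
  apply integral_congr_ae
  refine Filter.Eventually.of_forall fun x => ?_
  have h3 : Toric.pull X1.σ (fun z => a z - a' z) x =
      Toric.pull X1.σ a x + (-1 : ℝ) • Toric.pull X1.σ a' x := by
    ext v
    show a _ _ - a' _ _ = a _ _ + (-1 : ℝ) • a' _ _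
    rw [smul_eq_mul]
    ring
  have hw := hwdg 3 k l
  show wedge _ _ _ = wedge _ _ _ - wedge _ _ _
  rw [h3, hw.1, (hw.2.2.1 _ _ _).1]
  show wedge _ _ _ + (-1 : ℝ) • wedge _ _ _ = wedge _ _ _ - wedge _ _ _
  rw [smul_eq_mul]
  ring

theorem rho_zero {δ : Fin 3 → ℝ} (hδ : Ad δ) {g : E6} (hg : g ∉ X1.U) : rho δ g = 0 := by
  rw [mem_U1'] at hg
  push Not at hg
  obtain ⟨i, hi⟩ := hg
  have h0 : nn g i = 0 := le_antisymm hi (nn_nonneg g i)
  unfold rho
  apply Finset.prod_eq_zero (Finset.mem_univ i)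
  rw [h0, Real.sqrt_zero, div_zero, th_zero (hδ i).1 (by linarith [(hδ i).2]), zero_mul]

end Pool.Agent.SIQ.H54
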