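import Pool.Agent.Helper54_SIQ.Dif

/-!
# MP_021b97_an, Q1, module PR7
-/

set_option autoImplicit false

open MeasureTheory Filter Topology

namespace Pool.Agent.SIQ.H54

open Pool.Agent.SIU

/-- `Av` of forms which agree on `U` -/
theorem gs_congr {k : ℕ} (hqua : QuaStmt) {g : E6} (hg : g ∈ X1.U) {a a' : E6 → Alt 6 k}
    (h : ∀ z ∈ X1.U, a z = a' z) {z : E6} (hz : z ∈ X1.U) : gs g a z = gs g a' z := by
  unfold gs
  rw [h _ ((hqua.2.1 g z).mpr ⟨hg, hz⟩)]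

theorem smooth_two {k : ℕ} {η : E6 → Alt 6 k} (h : X1.Smooth η) : ContDiffOn ℝ 2 η X1.U := by
  refine ContDiffOn.of_le h ?_
  exact WithTop.coe_le_coe.mpr (le_top : (2 : ℕ∞) ≤ ⊤)

/-- the identity `S (g^* β) = T (g^* dd^c β)` -/
theorem ddc_step (hgsf : GsfStmt) (hqua : QuaStmt) {q : ℕ}
    {T : X1.Current (q + 1)} {S : X1.Current q} (hTS : X1.IsDdc T S)
    {β : X1.Form (2 * q)} (hs : X1.Smooth β.1) (hr : RotInv β.1)
    {B : X1.Form (2 * (q + 1))} (hB : ∀ z ∈ X1.U, B.1 z = ddc β.1 z) {g : E6} (hg : g ∈ X1.U) :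
    S (toF (gs g β.1)) = T (toF (gs g B.1)) := by
  have G := hgsf g hg
  have c1 : ContinuousOn (gs g β.1) X1.U := G.1 _ _ β.2.1
  have b1 : X1.BasicOn X1.U (gs g β.1) := G.2.1 _ _ β.2.2.1
  have c2 : ContinuousOn (gs g B.1) X1.U := G.1 _ _ B.2.1
  have b2 : X1.BasicOn X1.U (gs g B.1) := G.2.1 _ _ B.2.2.1
  have s1 : X1.Smooth (gs g β.1) := G.2.2.1 _ _ hs
  have e1 : ∀ z ∈ X1.U, (toF (gs g β.1)).1 z = gs g β.1 z := fun z hz => toF_apply c1 b1 hz
  have e2 : ∀ z ∈ X1.U, (toF (gs g B.1)).1 z = gs g B.1 z := fun z hz => toF_apply c2 b2 hz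
  have r1 : RotInv (gs g β.1) := G.2.2.2.2.2.2.2 _ _ hr
  refine hTS.2 (toF (gs g β.1)) ?_ ?_ (toF (gs g B.1)) ?_
  · exact ContDiffOn.congr s1 e1
  · intro z hz u hu v
    rw [e1 z hz]
    exact r1 z hz u hu v
  · intro z hz
    rw [e2 z hz, ddc_congr_on isOpen_U1 e1 hz]
    have h5 := G.2.2.2.2.1 _ β.1 (smooth_two hs) z hz
    rw [h5]
    exact gs_congr hqua hg hB hz

theorem pr7 (hrdc : RdcStmt) (hdds : DdsStmt) (hndr : NdrStmt) (hgsf : GsfStmt)
    (hint : IntStmt) (hkkp : KkpStmt) (hbsd : BsdStmt) (hqua : QuaStmt)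
    (hprf : PrfStmt) (hwdg : WdgStmt) : Pr7Stmt := by
  intro δ hδ p q hpq T S hTc hTb hSc hSb hTS z hz
  have KT := hkkp δ hδ p (q + 1) hpq T hTc
  have KS := hkkp δ hδ (p + 1) q (by omega) S hSc
  set K := KK δ p (q + 1) T with hK
  set K' := KK δ (p + 1) q S with hK'
  have hdc : ContinuousOn (ddc K.1) X1.U := by
    have h := contDiffOn_ddc (m := 0) isOpen_U1 (smooth_two KT.1) (by norm_num)
    exact h.continuousOn
  have hdb : X1.BasicOn X1.U (ddc K.1) := basicOn_ddc hbsd (smooth_two KT.1) le_rfl K.2.2.1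
  have hdr : RotInv (ddc K.1) := rotInv_ddc hrdc (smooth_two KT.1) le_rfl (KT.2.2.1 hTb)
  have hKr : RotInv K'.1 := KS.2.2.1 hSb
  have key : ∀ β : X1.Form (2 * q), X1.Smooth β.1 → RotInv β.1 →
      X1.pair (ddc K.1) β.1 = X1.pair K'.1 β.1 := by
    intro β hs hr
    have hβ2 := smooth_two hs
    have c1 : ContinuousOn (ddc β.1) X1.U := by
      have h := contDiffOn_ddc (m := 0) isOpen_U1 hβ2 (by norm_num)
      exact h.continuousOn
    have b1 : X1.BasicOn X1.U (ddc β.1) := basicOn_ddc hbsd hβ2 le_rfl β.2.2.1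
    let B : X1.Form (2 * (q + 1)) := toF (k := 2 * (q + 1)) (ddc β.1)
    have hB : ∀ z ∈ X1.U, B.1 z = ddc β.1 z := fun z hz => toF_apply c1 b1 hz
    have s1 : X1.pair (ddc K.1) β.1 = X1.pair K.1 (ddc β.1) :=
      hdds (2 * p) (2 * q) (by omega) (even_two_mul p) K.1 β.1 (smooth_two KT.1) K.2.2.1
        hβ2 β.2.2.1
    have s2 : X1.pair K.1 (ddc β.1) = X1.pair K.1 B.1 :=
      pair_congr (fun _ _ => rfl) (fun z hz => (hB z hz).symm)
    rw [s1, s2, KT.2.1 B, KS.2.1 β, (hint δ hδ (q + 1) T hTc B).2, (hint δ hδ q S hSc β).2]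
    congr 1
    apply integral_congr_ae
    refine Filter.Eventually.of_forall fun g => ?_
    show rho δ g * _ = rho δ g * _
    by_cases hg : g ∈ X1.U
    · rw [ddc_step hgsf hqua hTS hs hr hB hg]
    · rw [rho_zero hδ hg, zero_mul, zero_mul]
  have hfin := hndr (2 * (p + 1)) (2 * q) (by omega) (fun z => ddc K.1 z - K'.1 z)
    (hdc.sub K'.2.1) (basicOn_sub hdb K'.2.2.1) (fun z hz u hu v => by
      show ddc K.1 z _ - K'.1 z _ = ddc K.1 z _ - K'.1 z _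
      exact congrArg₂ (fun s t : ℝ => s - t) (hdr z hz u hu v) (hKr z hz u hu v)) (fun β hs hr => by
      rw [pair_sub_left hprf hwdg (by omega) hdc hdb K'.2.1 K'.2.2.1 β.2.1 β.2.2.1]
      exact sub_eq_zero.mpr (key β hs hr)) z hz
  exact sub_eq_zero.mp hfin

end Pool.Agent.SIQ.H54
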