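import Pool.Agent.Helper15_SIQ.Stmts

/-!
# MP_021b97_an, Q1, module SMG: the kernel is smooth with values in `C(M1, ℝ)`
-/

set_option autoImplicit false

open MeasureTheory Filter Topology

namespace Pool.Agent.SIQ.H54

open Pool.Agent.SIU

theorem continuous_rip (h : E6) (i : Fin 3) : Continuous (fun w : M1 => rip h (w : E6) i) := by
  have hc : ∀ m : Fin 6, Continuous (fun w : M1 => (starRingEnd ℂ) ((w : E6) m)) := fun m =>
    Complex.continuous_conj.comp ((continuous_apply m).comp continuous_subtype_val)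
  unfold rip
  exact Complex.continuous_re.comp
    ((continuous_const.mul (hc (lo i))).add (continuous_const.mul (hc (hi i))))

/-- `h ↦ rip h · i` as a linear map -/
noncomputable def Fi (i : Fin 3) : E6 →ₗ[ℝ] C(M1, ℝ) where
  toFun h := ⟨fun w => rip h (w : E6) i, continuous_rip h i⟩
  map_add' a b := by
    ext w
    simp only [ContinuousMap.coe_mk, ContinuousMap.add_apply, rip, Pi.add_apply, add_mul,
      Complex.add_re]
    ring
  map_smul' t a := by
    ext w
    simp only [ContinuousMap.coe_mk, ContinuousMap.smul_apply, rip, Pi.smul_apply, RingHom.id_apply,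
      Complex.add_re, Complex.real_smul, smul_eq_mul, mul_assoc, Complex.re_ofReal_mul]
    ring

theorem Fi_apply (i : Fin 3) (h : E6) (w : M1) : Fi i h w = rip h (w : E6) i := rfl

theorem contDiff_nn (i : Fin 3) : ContDiff ℝ ((⊤ : ℕ∞) : WithTop ℕ∞) (fun z : E6 => nn z i) := by
  unfold nn
  exact ((contDiff_apply ℝ ℂ (lo i)).norm_sq ℝ).add ((contDiff_apply ℝ ℂ (hi i)).norm_sq ℝ)

theorem contDiffOn_sq (i : Fin 3) : ContDiffOn ℝ ((⊤ : ℕ∞) : WithTop ℕ∞)
    (fun z : E6 => (√(nn z i))⁻¹) X1.U := by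
  have h1 : ContDiffOn ℝ ((⊤ : ℕ∞) : WithTop ℕ∞) (fun z : E6 => √(nn z i)) X1.U :=
    (contDiff_nn i).contDiffOn.sqrt fun z hz => ((mem_U1' z).mp hz i).ne'
  exact h1.inv fun z hz => (Real.sqrt_pos.mpr ((mem_U1' z).mp hz i)).ne'

theorem smg (homg : OmgStmt) : SmgStmt := by
  intro δ hδ
  let θ : Fin 3 → C(ℝ, ℝ) := fun i => ⟨th (δ i), (contDiff_th (δ i)).continuous⟩
  refine ⟨fun h => ∏ i, (θ i).comp ((√(nn h i))⁻¹ • Fi i h), ?_, ?_⟩
  · intro h hh w
    rw [ContinuousMap.prod_apply]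
    unfold Gk
    refine Finset.prod_congr rfl fun i _ => ?_
    show th (δ i) ((√(nn h i))⁻¹ • rip h w i) = _
    rw [smul_eq_mul, div_eq_inv_mul]
  · have hF : ∀ i, ContDiff ℝ ((⊤ : ℕ∞) : WithTop ℕ∞) (fun h : E6 => Fi i h) := fun i =>
      (LinearMap.toContinuousLinearMap (Fi i)).contDiff
    have h1 : ∀ i, ContDiffOn ℝ ((⊤ : ℕ∞) : WithTop ℕ∞)
        (fun h : E6 => (θ i).comp ((√(nn h i))⁻¹ • Fi i h)) X1.U := by
      intro i
      have h2 := homg M1 (θ i) (contDiff_th (δ i))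
      exact h2.comp_contDiffOn ((contDiffOn_sq i).smul (hF i).contDiffOn)
    exact contDiffOn_prod fun i _ => h1 i

end Pool.Agent.SIQ.H54
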